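import Pool.Agent.Q233.SW.Bin

set_option autoImplicit false

/-!
# The discriminant is a square or large
-/

open Finset

namespace Pool.Agent.Q233.SW

lemma IsInt.eq_zero {z : ℂ} (h : IsInt z) (h1 : ‖z‖ < 1) : z = 0 := by
  obtain ⟨m, rfl⟩ := h
  rw [Complex.norm_intCast] at h1
  have : |m| < 1 := by exact_mod_cast h1
  have : m = 0 := by
    rw [abs_lt] at this; omega
  rw [this]; simp

lemma square_of_zero {x y : ℂ} {c₁ c₂ : ℤ} (hs : x + y = c₁) (hp : x * y = c₂) {m : ℕ} {s : ℤ}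
    (h1 : F x y m s = 0) (h2 : F x y (m + 1) s = 0) : IsSquare (c₁ ^ 2 - 4 * c₂) := by
  have hm : ((m : ℂ) + 1) ≠ 0 := by exact_mod_cast Nat.succ_ne_zero m
  unfold F at h1 h2
  rw [bin_succ, bin_succ] at h2
  have h3 : bin (x + s) m * (x + s - m) + bin (y + s) m * (y + s - m) = 0 := by
    have : (bin (x + s) m * (x + s - m) + bin (y + s) m * (y + s - m)) / ((m : ℂ) + 1) = 0 := by
      rw [← h2]; ring
    rcases div_eq_zero_iff.1 this with h | h
    · exact h
    · exact absurd h hm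
  have h4 : bin (x + s) m * (x - y) = 0 := by linear_combination h3 - (y + s - m) * h1
  rcases mul_eq_zero.1 h4 with h | h
  · unfold bin at h
    rcases div_eq_zero_iff.1 h with h5 | h5
    · obtain ⟨i, -, hi⟩ := prod_eq_zero_iff.1 h5
      have hx : x = ((i - s : ℤ) : ℂ) := by push_cast; linear_combination hi
      refine ⟨2 * (i - s) - c₁, ?_⟩
      have : ((c₁ ^ 2 - 4 * c₂ : ℤ) : ℂ) = (((2 * (i - s) - c₁) * (2 * (i - s) - c₁) : ℤ) : ℂ) := by
        push_cast
        push_cast at hx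
        rw [← hs, ← hp, hx]
        ring
      exact_mod_cast this
    · exact absurd h5 (fact_ne m)
  · refine ⟨0, ?_⟩
    have : ((c₁ ^ 2 - 4 * c₂ : ℤ) : ℂ) = 0 := by
      push_cast
      rw [← hs, ← hp]
      linear_combination (x - y) * h
    simpa using (by exact_mod_cast this : c₁ ^ 2 - 4 * c₂ = 0)

lemma prod_le_fact : ∀ (N : ℕ) (z : ℝ), 0 ≤ z → z ≤ N →
    |∏ i ∈ range (N + 1), (z - i)| ≤ (N.factorial : ℝ) := by
  intro N
  induction N with
  | zero =>
    intro z h0 h1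
    have : z = 0 := le_antisymm (by simpa using h1) h0
    simp [this]
  | succ N ih =>
    intro z h0 h1
    have hN : (0 : ℝ) ≤ N := Nat.cast_nonneg N
    push_cast at h1
    rcases le_or_gt z N with hz | hz
    · rw [prod_range_succ, abs_mul]
      have e1 := ih z h0 hz
      have e2 : |z - ((N + 1 : ℕ) : ℝ)| ≤ (N : ℝ) + 1 := by
        push_cast
        rw [abs_le]; constructor <;> linarith
      calc _ ≤ (N.factorial : ℝ) * ((N : ℝ) + 1) :=
            mul_le_mul e1 e2 (abs_nonneg _) (Nat.cast_nonneg _)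
        _ = ((N + 1).factorial : ℝ) := by rw [Nat.factorial_succ]; push_cast; ring
    · rcases Nat.eq_zero_or_pos N with h | h
      · subst h
        simp only [Nat.cast_zero, zero_add] at h1 hz
        rw [show range (0 + 1 + 1) = range 2 from rfl, prod_range_succ, prod_range_one, abs_mul]
        have e1 : |z - ((0 : ℕ) : ℝ)| ≤ 1 := by
          rw [abs_le]; push_cast; constructor <;> linarith
        have e2 : |z - ((1 : ℕ) : ℝ)| ≤ 1 := by
          rw [abs_le]; push_cast; constructor <;> linarith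
        have := mul_le_mul e1 e2 (abs_nonneg _) zero_le_one
        simpa using this
      · have hN1 : (1 : ℝ) ≤ N := by exact_mod_cast h
        have e1 := ih (z - 1) (by linarith) (by linarith)
        have e3 : ∏ i ∈ range (N + 1 + 1), (z - i) = z * ∏ i ∈ range (N + 1), (z - 1 - i) := by
          rw [prod_range_succ', mul_comm]
          congr 1
          · push_cast; ring
          · refine prod_congr rfl fun i _ => ?_
            push_cast; ring
        rw [e3, abs_mul]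
        have e4 : |z| ≤ (N : ℝ) + 1 := by rw [abs_of_nonneg h0]; exact h1
        calc _ ≤ ((N : ℝ) + 1) * (N.factorial : ℝ) :=
              mul_le_mul e4 e1 (abs_nonneg _) (by positivity)
          _ = ((N + 1).factorial : ℝ) := by rw [Nat.factorial_succ]; push_cast; ring

lemma bin_real_le (N : ℕ) (z : ℝ) (h0 : 0 ≤ z) (h1 : z ≤ N) :
    ‖bin (z : ℂ) (N + 1)‖ ≤ 1 / ((N : ℝ) + 1) := by
  have e : bin (z : ℂ) (N + 1) =
      (((∏ i ∈ range (N + 1), (z - i)) / ((N + 1).factorial : ℝ) : ℝ) : ℂ) := by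
    unfold bin
    push_cast
    rfl
  have hf : (0 : ℝ) < N.factorial := by exact_mod_cast N.factorial_pos
  rw [e, Complex.norm_real, Real.norm_eq_abs, abs_div,
    abs_of_nonneg (Nat.cast_nonneg (α := ℝ) (N + 1).factorial), Nat.factorial_succ]
  push_cast
  have h2 := prod_le_fact N z h0 h1
  rw [div_le_div_iff₀ (by positivity) (by positivity)]
  have h3 : |∏ i ∈ range (N + 1), (z - i)| * ((N : ℝ) + 1) ≤ (N.factorial : ℝ) * ((N : ℝ) + 1) :=
    mul_le_mul_of_nonneg_right h2 (by positivity)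
  linarith

lemma exp_gt (k : ℕ) (hk : 2 ≤ k) : 2 * ((k : ℝ) ^ k / (k.factorial : ℝ)) < Real.exp k := by
  obtain ⟨m, rfl⟩ : ∃ m, k = m + 1 := ⟨k - 1, by omega⟩
  have h := Real.sum_le_exp_of_nonneg (x := ((m + 1 : ℕ) : ℝ)) (Nat.cast_nonneg _) (m + 2)
  rw [sum_range_succ, sum_range_succ] at h
  have h1 : (1 : ℝ) ≤ ∑ i ∈ range m, ((m + 1 : ℕ) : ℝ) ^ i / (i.factorial : ℝ) := by
    have := Finset.single_le_sum (f := fun i => ((m + 1 : ℕ) : ℝ) ^ i / (i.factorial : ℝ))
      (s := range m) (fun i _ => by positivity) (mem_range.2 (by omega : 0 < m))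
    simpa using this
  have h2 : ((m + 1 : ℕ) : ℝ) ^ m / (m.factorial : ℝ) =
      ((m + 1 : ℕ) : ℝ) ^ (m + 1) / ((m + 1).factorial : ℝ) := by
    have hf : (m.factorial : ℝ) ≠ 0 := by exact_mod_cast m.factorial_ne_zero
    have hm : ((m : ℝ) + 1) ≠ 0 := by positivity
    rw [Nat.factorial_succ, pow_succ]
    push_cast
    field_simp
  rw [h2] at h
  linarith

lemma prod_le_pow {k : ℕ} (a : ℕ → ℝ) (ha : ∀ i, 0 ≤ a i) {M : ℝ} (hM : 0 < M)
    (hsum : ∑ i ∈ range k, a i ≤ k * M) : ∏ i ∈ range k, a i ≤ M ^ k := by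
  have h1 : ∏ i ∈ range k, a i ≤ ∏ i ∈ range k, (M * Real.exp (a i / M - 1)) := by
    refine prod_le_prod (fun i _ => ha i) fun i _ => ?_
    have := Real.add_one_le_exp (a i / M - 1)
    have h2 : a i / M ≤ Real.exp (a i / M - 1) := by linarith
    calc a i = M * (a i / M) := by field_simp
      _ ≤ _ := mul_le_mul_of_nonneg_left h2 hM.le
  refine h1.trans ?_
  rw [prod_mul_distrib, prod_const, card_range, ← Real.exp_sum]
  have h3 : ∑ i ∈ range k, (a i / M - 1) ≤ 0 := by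
    rw [sum_sub_distrib, ← sum_div]
    simp only [sum_const, card_range, nsmul_eq_mul, mul_one]
    rw [sub_nonpos, div_le_iff₀ hM]
    exact hsum
  calc M ^ k * Real.exp (∑ i ∈ range k, (a i / M - 1)) ≤ M ^ k * 1 :=
        mul_le_mul_of_nonneg_left (Real.exp_le_one_iff.2 h3) (by positivity)
    _ = M ^ k := mul_one _

lemma sum_sq (k : ℕ) (σ w : ℝ) : ∑ i ∈ range k, ((σ - i) ^ 2 + w) =
    k * ((σ - (k - 1) / 2) ^ 2 + ((k : ℝ) ^ 2 - 1) / 12 + w) := by
  induction k with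
  | zero => simp
  | succ k ih => rw [sum_range_succ, ih]; push_cast; ring

lemma exp_two_lt : Real.exp 2 < 15 / 2 := by
  have h := Real.exp_one_lt_d9
  have h2 : Real.exp 2 = Real.exp 1 * Real.exp 1 := by rw [← Real.exp_add]; norm_num
  rw [h2]
  nlinarith [Real.exp_pos 1]

lemma bin_imag_lt {k : ℕ} (hk : 2 ≤ k) (z : ℂ) (h1 : |z.re - ((k : ℝ) - 1) / 2| ≤ 1 / 2)
    (h2 : 20 * z.im ^ 2 ≤ (k : ℝ) ^ 2 - 4) : ‖bin z k‖ < 1 / 2 := by
  have hk0 : (0 : ℝ) < k := by exact_mod_cast (by omega : 0 < k)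
  have hf : (0 : ℝ) < k.factorial := by exact_mod_cast k.factorial_pos
  obtain ⟨M, hM⟩ : ∃ M, M = (k : ℝ) ^ 2 * Real.exp (-2) := ⟨_, rfl⟩
  have hM0 : 0 < M := by rw [hM]; positivity
  have he : (2 : ℝ) / 15 ≤ Real.exp (-2) := by
    rw [Real.exp_neg, le_inv_comm₀ (by norm_num) (Real.exp_pos 2)]
    have := exp_two_lt
    norm_num
    linarith
  have hsq : (z.re - ((k : ℝ) - 1) / 2) ^ 2 ≤ 1 / 4 := by
    have := abs_le.1 h1
    nlinarith
  have hprod : ∏ i ∈ range k, ((z.re - i) ^ 2 + z.im ^ 2) ≤ M ^ k := by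
    refine prod_le_pow (fun i => (z.re - i) ^ 2 + z.im ^ 2) (fun i => by positivity) hM0 ?_
    rw [sum_sq]
    refine mul_le_mul_of_nonneg_left ?_ hk0.le
    rw [hM]
    have : (k : ℝ) ^ 2 * (2 / 15) ≤ (k : ℝ) ^ 2 * Real.exp (-2) :=
      mul_le_mul_of_nonneg_left he (by positivity)
    nlinarith
  have hnorm : ‖∏ i ∈ range k, (z - i)‖ ^ 2 = ∏ i ∈ range k, ((z.re - i) ^ 2 + z.im ^ 2) := by
    rw [Complex.norm_prod, ← prod_pow]
    refine prod_congr rfl fun i _ => ?_
    rw [Complex.sq_norm, Complex.normSq_apply]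
    simp
    ring
  have hMk : M ^ k = ((k : ℝ) ^ k * Real.exp (-(k : ℝ))) ^ 2 := by
    rw [hM, mul_pow, mul_pow, ← pow_mul, ← pow_mul, mul_comm 2 k, ← Real.exp_nat_mul,
      ← Real.exp_nat_mul]
    congr 2
    push_cast; ring
  have h3 : ‖∏ i ∈ range k, (z - i)‖ ≤ (k : ℝ) ^ k * Real.exp (-(k : ℝ)) := by
    refine (sq_le_sq₀ (norm_nonneg _) (by positivity)).1 ?_
    rw [hnorm, ← hMk]; exact hprod
  have h4 : (k : ℝ) ^ k * Real.exp (-(k : ℝ)) < (k.factorial : ℝ) / 2 := by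
    have := exp_gt k hk
    rw [Real.exp_neg, ← div_eq_mul_inv, div_lt_iff₀ (Real.exp_pos _)]
    have h5 : (k : ℝ) ^ k / (k.factorial : ℝ) < Real.exp k / 2 := by linarith
    rw [div_lt_iff₀ hf] at h5
    linarith
  unfold bin
  rw [norm_div, Complex.norm_natCast, div_lt_iff₀ hf]
  linarith

/-- `x` is a root of `X² - c₁ X + c₂` -/
lemma root_eq {x y : ℂ} {c₁ c₂ : ℤ} (hs : x + y = c₁) (hp : x * y = c₂) :
    (2 * x - c₁) ^ 2 = ((c₁ ^ 2 - 4 * c₂ : ℤ) : ℂ) := by
  push_cast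
  rw [← hs, ← hp]; ring

/-- Archimedean part: the discriminant is a square, or large. -/
theorem arch {x y : ℂ} {c₁ c₂ : ℤ} (hs : x + y = c₁) (hp : x * y = c₂) {n : ℕ} (hn : 4 ≤ n)
    (h : ∀ k ≤ n, ∀ s : ℤ, IsInt (F x y k s)) :
    IsSquare (c₁ ^ 2 - 4 * c₂) ∨ ((n : ℤ) - 3) ^ 2 < c₁ ^ 2 - 4 * c₂ ∨
      ((n : ℤ) - 1) ^ 2 < -5 * (c₁ ^ 2 - 4 * c₂) + 4 := by
  obtain ⟨D, hD⟩ : ∃ D : ℤ, D = c₁ ^ 2 - 4 * c₂ := ⟨_, rfl⟩
  rw [← hD]
  by_contra hcon
  push Not at hcon
  obtain ⟨hnsq, hpos, hneg⟩ := hcon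
  -- it is enough to find a twist where two consecutive values are small
  have key : ∀ s : ℤ, ‖F x y (n - 1) s‖ < 1 → ‖F x y n s‖ < 1 → False := by
    intro s h1 h2
    have e1 := (h (n - 1) (by omega) s).eq_zero h1
    have e2 := (h n le_rfl s).eq_zero h2
    obtain ⟨m, rfl⟩ : ∃ m, n = m + 1 := ⟨n - 1, by omega⟩
    have := square_of_zero hs hp (m := m) (s := s) (by simpa using e1) e2
    rw [← hD] at this
    exact hnsq this
  have hx := root_eq hs hp
  have hy : y = c₁ - x := by rw [← hs]; ring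
  rw [← hD] at hx
  rcases lt_trichotomy D 0 with hD0 | hD0 | hD0
  · -- negative discriminant
    obtain ⟨t, ht0, ht⟩ : ∃ t : ℝ, 0 ≤ t ∧ t ^ 2 = -(D : ℝ) := by
      refine ⟨Real.sqrt (-(D : ℝ)), Real.sqrt_nonneg _, Real.sq_sqrt ?_⟩
      have : (D : ℝ) < 0 := by exact_mod_cast hD0
      linarith
    have hx2 : (2 * x - c₁) ^ 2 = ((t : ℂ) * Complex.I) ^ 2 := by
      rw [hx, mul_pow, Complex.I_sq]
      have : ((t ^ 2 : ℝ) : ℂ) = ((-(D : ℝ) : ℝ) : ℂ) := by rw [ht]
      push_cast at this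
      rw [this]; ring
    have him : x.re = c₁ / 2 ∧ x.im ^ 2 = t ^ 2 / 4 := by
      rcases sq_eq_sq_iff_eq_or_eq_neg.1 hx2 with h1 | h1
      · have e1 := congrArg Complex.re h1
        have e2 := congrArg Complex.im h1
        simp at e1 e2
        constructor
        · linarith
        · rw [← e2]; ring
      · have e1 := congrArg Complex.re h1
        have e2 := congrArg Complex.im h1
        simp at e1 e2
        constructor
        · linarith
        · have : x.im = -t / 2 := by linarith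
          rw [this]; ring
    -- choose the twist
    obtain ⟨s, hs1, hs2⟩ : ∃ s : ℤ, c₁ + 2 * s ≤ n - 1 ∧ (n : ℤ) - 2 ≤ c₁ + 2 * s := by
      refine ⟨((n : ℤ) - 1 - c₁) / 2, ?_, ?_⟩ <;> omega
    have hs1' : (c₁ : ℝ) + 2 * s ≤ (n : ℝ) - 1 := by exact_mod_cast hs1
    have hs2' : (n : ℝ) - 2 ≤ (c₁ : ℝ) + 2 * s := by exact_mod_cast hs2
    have hnegR : -5 * (D : ℝ) + 4 ≤ ((n : ℝ) - 1) ^ 2 := by exact_mod_cast hneg
    have hnR : (4 : ℝ) ≤ n := by exact_mod_cast hn
    have small : ∀ k : ℕ, 2 ≤ k → ((k : ℝ) = n ∨ (k : ℝ) = n - 1) →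
        ‖F x y k s‖ < 1 := by
      intro k hk hk'
      have b1 : ‖bin (x + s) k‖ < 1 / 2 := by
        refine bin_imag_lt hk _ ?_ ?_
        · simp only [Complex.add_re, Complex.intCast_re, him.1]
          rw [abs_le]
          rcases hk' with e | e <;> rw [e] <;> constructor <;> linarith
        · simp only [Complex.add_im, Complex.intCast_im, add_zero, him.2, ht]
          rcases hk' with e | e <;> rw [e] <;> nlinarith
      have b2 : ‖bin (y + s) k‖ < 1 / 2 := by
        refine bin_imag_lt hk _ ?_ ?_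
        · rw [hy]
          simp only [Complex.add_re, Complex.sub_re, Complex.intCast_re, him.1]
          rw [abs_le]
          rcases hk' with e | e <;> rw [e] <;> constructor <;> linarith
        · rw [hy]
          simp only [Complex.add_im, Complex.sub_im, Complex.intCast_im, add_zero, zero_sub, neg_sq,
            him.2, ht]
          rcases hk' with e | e <;> rw [e] <;> nlinarith
      unfold F
      calc _ ≤ _ := norm_add_le _ _
        _ < 1 := by linarith
    refine key s (small (n - 1) (by omega) (Or.inr ?_)) (small n (by omega) (Or.inl rfl))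
    rw [Nat.cast_sub (by omega)]; simp
  · exact hnsq ⟨0, by rw [hD0]; ring⟩
  · -- positive discriminant
    obtain ⟨t, ht0, ht⟩ : ∃ t : ℝ, 0 ≤ t ∧ t ^ 2 = (D : ℝ) := by
      refine ⟨Real.sqrt (D : ℝ), Real.sqrt_nonneg _, Real.sq_sqrt ?_⟩
      exact_mod_cast hD0.le
    have hx2 : (2 * x - c₁) ^ 2 = (t : ℂ) ^ 2 := by
      rw [hx]
      have : ((t ^ 2 : ℝ) : ℂ) = ((D : ℝ) : ℂ) := by rw [ht]
      push_cast at this
      rw [this]
    have hnR : (4 : ℝ) ≤ n := by exact_mod_cast hn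
    have htn : t ≤ (n : ℝ) - 3 := by
      have h1 : t ^ 2 ≤ ((n : ℝ) - 3) ^ 2 := by rw [ht]; exact_mod_cast hpos
      exact (sq_le_sq₀ ht0 (by linarith)).1 h1
    -- both roots are real, in an interval of length `t`
    have hreal : ∃ a b : ℝ, x = a ∧ y = b ∧ |a - b| ≤ t := by
      rcases sq_eq_sq_iff_eq_or_eq_neg.1 hx2 with h1 | h1
      · refine ⟨((c₁ : ℝ) + t) / 2, ((c₁ : ℝ) - t) / 2, ?_, ?_, ?_⟩
        · push_cast; linear_combination h1 / 2
        · rw [hy]; push_cast; linear_combination -h1 / 2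
        · rw [show ((c₁ : ℝ) + t) / 2 - ((c₁ : ℝ) - t) / 2 = t by ring, abs_of_nonneg ht0]
      · refine ⟨((c₁ : ℝ) - t) / 2, ((c₁ : ℝ) + t) / 2, ?_, ?_, ?_⟩
        · push_cast; linear_combination h1 / 2
        · rw [hy]; push_cast; linear_combination -h1 / 2
        · rw [show ((c₁ : ℝ) - t) / 2 - ((c₁ : ℝ) + t) / 2 = -t by ring, abs_neg,
            abs_of_nonneg ht0]
    obtain ⟨a, b, rfl, rfl, hab⟩ := hreal
    obtain ⟨s, hs⟩ : ∃ s : ℤ, s = -⌊min a b⌋ := ⟨_, rfl⟩
    have f1 : (⌊min a b⌋ : ℝ) ≤ min a b := Int.floor_le _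
    have f2 : min a b < (⌊min a b⌋ : ℝ) + 1 := Int.lt_floor_add_one _
    have g1 := min_le_left a b
    have g2 := min_le_right a b
    have hab' := abs_le.1 hab
    have hsr : (s : ℝ) = -(⌊min a b⌋ : ℝ) := by rw [hs]; push_cast; ring
    have small : ∀ k : ℕ, 3 ≤ k → ((k : ℝ) = n ∨ (k : ℝ) = n - 1) →
        ‖F (a : ℂ) (b : ℂ) k s‖ < 1 := by
      intro k hk hk'
      obtain ⟨N, rfl⟩ : ∃ N, k = N + 1 := ⟨k - 1, by omega⟩
      have hN2 : (n : ℝ) - 2 ≤ N := by
        push_cast at hk'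
        rcases hk' with e | e <;> linarith
      have hN3 : (2 : ℝ) ≤ N := by exact_mod_cast (by omega : 2 ≤ N)
      have hbnd : ∀ z : ℝ, (z = a ∨ z = b) → 0 ≤ z + s ∧ z + s ≤ N := by
        intro z hz
        have : z ≤ min a b + t := by
          rcases min_choice a b with hm | hm <;> rw [hm] <;> rcases hz with rfl | rfl <;> linarith
        constructor
        · rcases hz with rfl | rfl <;> linarith
        · linarith
      have e1 := bin_real_le N (a + s) (hbnd a (Or.inl rfl)).1 (hbnd a (Or.inl rfl)).2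
      have e2 := bin_real_le N (b + s) (hbnd b (Or.inr rfl)).1 (hbnd b (Or.inr rfl)).2
      have e3 : (1 : ℝ) / (N + 1) ≤ 1 / 3 := by
        apply one_div_le_one_div_of_le <;> linarith
      unfold F
      have c1 : ((a : ℂ) + (s : ℂ)) = ((a + s : ℝ) : ℂ) := by push_cast; rfl
      have c2 : ((b : ℂ) + (s : ℂ)) = ((b + s : ℝ) : ℂ) := by push_cast; rfl
      rw [c1, c2]
      calc _ ≤ _ := norm_add_le _ _
        _ < 1 := by linarith
    refine key s (small (n - 1) (by omega) (Or.inr ?_)) (small n (by omega) (Or.inl rfl))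
    rw [Nat.cast_sub (by omega)]; simp

end Pool.Agent.Q233.SW
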