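import Mathlib

set_option autoImplicit false

/-!
# Integrality of sums of binomial polynomials at two conjugate points

`bin z k = z (z - 1) ... (z - k + 1) / k!`.  If `bin (x + s) n + bin (y + s) n` is an integer for all
large integers `s`, then `bin (x + s) k + bin (y + s) k` is an integer for all `k ≤ n` and all `s`, and
`2 * bin (x + s) k * bin (y + s) k` is an integer if `2 k ≤ n`.
-/

open Finset

namespace Pool.Agent.Q233.SW

/-- the binomial coefficient `z (z - 1) ... (z - k + 1) / k!` -/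
noncomputable def bin (z : ℂ) (k : ℕ) : ℂ := (∏ i ∈ range k, (z - i)) / (k.factorial : ℂ)

/-- `z` is an integer -/
def IsInt (z : ℂ) : Prop := ∃ m : ℤ, z = m

lemma IsInt.add {a b : ℂ} (ha : IsInt a) (hb : IsInt b) : IsInt (a + b) := by
  obtain ⟨m, rfl⟩ := ha; obtain ⟨k, rfl⟩ := hb; exact ⟨m + k, by push_cast; ring⟩

lemma IsInt.sub {a b : ℂ} (ha : IsInt a) (hb : IsInt b) : IsInt (a - b) := by
  obtain ⟨m, rfl⟩ := ha; obtain ⟨k, rfl⟩ := hb; exact ⟨m - k, by push_cast; ring⟩

lemma IsInt.mul {a b : ℂ} (ha : IsInt a) (hb : IsInt b) : IsInt (a * b) := by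
  obtain ⟨m, rfl⟩ := ha; obtain ⟨k, rfl⟩ := hb; exact ⟨m * k, by push_cast; ring⟩

lemma isInt_nat (k : ℕ) : IsInt (k : ℂ) := ⟨k, by push_cast; rfl⟩

lemma isInt_sum {ι : Type*} (S : Finset ι) (f : ι → ℂ) (h : ∀ i ∈ S, IsInt (f i)) :
    IsInt (∑ i ∈ S, f i) := by
  classical
  induction S using Finset.induction_on with
  | empty => exact ⟨0, by simp⟩
  | insert a S ha ih =>
    rw [sum_insert ha]
    exact (h a (mem_insert_self a S)).add (ih fun i hi => h i (mem_insert_of_mem hi))

@[simp] lemma bin_zero (z : ℂ) : bin z 0 = 1 := by simp [bin]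

lemma fact_ne (k : ℕ) : (k.factorial : ℂ) ≠ 0 := by exact_mod_cast k.factorial_ne_zero

lemma bin_succ (z : ℂ) (k : ℕ) : bin z (k + 1) = bin z k * (z - k) / (k + 1) := by
  unfold bin
  rw [prod_range_succ, Nat.factorial_succ]
  have h1 := fact_ne k
  have h2 : ((k : ℂ) + 1) ≠ 0 := by exact_mod_cast Nat.succ_ne_zero k
  push_cast
  field_simp

lemma prod_shift (z : ℂ) (k : ℕ) :
    ∏ i ∈ range (k + 1), (z + 1 - i) = (z + 1) * ∏ i ∈ range k, (z - i) := by
  rw [prod_range_succ']
  rw [mul_comm]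
  congr 1
  · push_cast; ring
  · refine prod_congr rfl fun i _ => ?_
    push_cast; ring

lemma bin_diff (z : ℂ) (k : ℕ) : bin (z + 1) (k + 1) - bin z (k + 1) = bin z k := by
  unfold bin
  rw [prod_shift, prod_range_succ, Nat.factorial_succ]
  have h1 := fact_ne k
  have h2 : ((k : ℂ) + 1) ≠ 0 := by exact_mod_cast Nat.succ_ne_zero k
  push_cast
  field_simp
  ring

lemma bin_natCast (m k : ℕ) : bin (m : ℂ) k = (m.choose k : ℂ) := by
  induction k generalizing m with
  | zero => simp
  | succ k ih =>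
    rw [bin_succ, ih]
    have h2 : ((k : ℂ) + 1) ≠ 0 := by exact_mod_cast Nat.succ_ne_zero k
    rw [div_eq_iff h2]
    rcases le_or_gt k m with h | h
    · have h3 := Nat.choose_succ_right_eq m k
      have h4 : ((m.choose (k + 1) * (k + 1) : ℕ) : ℂ) = ((m.choose k * (m - k) : ℕ) : ℂ) := by
        rw [h3]
      push_cast [Nat.cast_sub h] at h4
      rw [h4]
    · rw [Nat.choose_eq_zero_of_lt h, Nat.choose_eq_zero_of_lt (by omega)]
      simp

/-- the polynomial `X (X - 1) ... (X - k + 1) / k!` -/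
noncomputable def binP (k : ℕ) : Polynomial ℂ :=
  Polynomial.C ((k.factorial : ℂ)⁻¹) * ∏ i ∈ range k, (Polynomial.X - Polynomial.C (i : ℂ))

lemma binP_eval (z : ℂ) (k : ℕ) : (binP k).eval z = bin z k := by
  unfold binP bin
  rw [Polynomial.eval_mul, Polynomial.eval_C, Polynomial.eval_prod]
  simp only [Polynomial.eval_sub, Polynomial.eval_X, Polynomial.eval_C]
  rw [div_eq_mul_inv, mul_comm]

lemma choose_sq (m k : ℕ) : m.choose k * m.choose k =
    ∑ j ∈ range (k + 1), (k.choose j * (k + j).choose k) * m.choose (k + j) := by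
  rcases lt_or_ge m k with h | h
  · rw [Nat.choose_eq_zero_of_lt h, zero_mul]
    symm
    refine sum_eq_zero fun j _ => ?_
    rw [Nat.choose_eq_zero_of_lt (by omega : m < k + j), mul_zero]
  · obtain ⟨r, rfl⟩ := Nat.exists_eq_add_of_le h
    have h1 := Nat.add_choose_eq k r k
    rw [Finset.Nat.sum_antidiagonal_eq_sum_range_succ_mk] at h1
    rw [show (k + r).choose k * (k + r).choose k =
      (k + r).choose k * ∑ x ∈ range k.succ, k.choose x * r.choose (k - x) from
        congrArg ((k + r).choose k * ·) h1]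
    rw [mul_sum, ← Finset.sum_range_reflect]
    refine sum_congr rfl fun j hj => ?_
    have hj' : j ≤ k := by
      have := mem_range.1 hj; omega
    have e1 : k + 1 - 1 - j = k - j := by omega
    have e2 : k - (k - j) = j := by omega
    simp only [e1]
    rw [e2, Nat.choose_symm hj']
    -- C(k+r,k) C(r,j) = C(k+r, k+j) C(k+j,k)
    have h3 := Nat.choose_mul (n := k + r) (k := k + j) (s := k)
    rcases le_or_gt j r with hjr | hjr
    · have h4 := h3 (by omega : k ≤ k + j)
      have e3 : k + r - k = r := by omega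
      have e4 : k + j - k = j := by omega
      rw [e3, e4] at h4
      calc (k + r).choose k * (k.choose j * r.choose j)
          = k.choose j * ((k + r).choose k * r.choose j) := by ring
        _ = k.choose j * ((k + r).choose (k + j) * (k + j).choose k) := by rw [h4]
        _ = _ := by ring
    · rw [Nat.choose_eq_zero_of_lt hjr, Nat.choose_eq_zero_of_lt (by omega : k + r < k + j)]
      simp

lemma bin_sq (z : ℂ) (k : ℕ) : bin z k * bin z k =
    ∑ j ∈ range (k + 1), ((k.choose j * (k + j).choose k : ℕ) : ℂ) * bin z (k + j) := by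
  have h : binP k * binP k = ∑ j ∈ range (k + 1),
      Polynomial.C (((k.choose j * (k + j).choose k : ℕ) : ℂ)) * binP (k + j) := by
    refine Polynomial.eq_of_infinite_eval_eq _ _ ?_
    refine Set.infinite_of_injective_forall_mem (f := fun m : ℕ => (m : ℂ))
      Nat.cast_injective fun m => ?_
    simp only [Set.mem_ofPred_eq, Polynomial.eval_mul, binP_eval, Polynomial.eval_finsetSum,
      Polynomial.eval_C, bin_natCast]
    have := choose_sq m k
    exact_mod_cast this
  have h2 := congrArg (Polynomial.eval z) h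
  simpa only [Polynomial.eval_mul, binP_eval, Polynomial.eval_finsetSum, Polynomial.eval_C]
    using h2

/-- the sum of the binomial polynomials at the two points -/
noncomputable def F (x y : ℂ) (k : ℕ) (s : ℤ) : ℂ := bin (x + s) k + bin (y + s) k

lemma F_diff (x y : ℂ) (k : ℕ) (s : ℤ) :
    F x y (k + 1) (s + 1) - F x y (k + 1) s = F x y k s := by
  unfold F
  have h1 := bin_diff (x + s) k
  have h2 := bin_diff (y + s) k
  have e1 : x + ((s + 1 : ℤ) : ℂ) = x + s + 1 := by push_cast; ring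
  have e2 : y + ((s + 1 : ℤ) : ℂ) = y + s + 1 := by push_cast; ring
  rw [e1, e2]
  linear_combination h1 + h2

lemma int_large (x y : ℂ) (n : ℕ) (s₀ : ℤ) (h : ∀ s : ℤ, s₀ ≤ s → IsInt (F x y n s)) :
    ∀ k ≤ n, ∀ s : ℤ, s₀ ≤ s → IsInt (F x y k s) := by
  have key : ∀ j ≤ n, ∀ s : ℤ, s₀ ≤ s → IsInt (F x y (n - j) s) := by
    intro j
    induction j with
    | zero => intro _ s hs; simpa using h s hs
    | succ j ih =>
      intro hj s hs
      have e : n - j = (n - (j + 1)) + 1 := by omega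
      have h1 := ih (by omega) s hs
      have h2 := ih (by omega) (s + 1) (by omega)
      rw [e] at h1 h2
      rw [← F_diff]
      exact h2.sub h1
  intro k hk s hs
  have := key (n - k) (by omega) s hs
  rwa [show n - (n - k) = k by omega] at this

lemma int_all (x y : ℂ) (n : ℕ) (s₀ : ℤ) (h : ∀ s : ℤ, s₀ ≤ s → IsInt (F x y n s)) :
    ∀ k ≤ n, ∀ s : ℤ, IsInt (F x y k s) := by
  intro k
  induction k with
  | zero => intro _ s; exact ⟨2, by simp [F]; norm_num⟩
  | succ k ih =>
    intro hk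
    have hl := int_large x y n s₀ h (k + 1) hk
    have key : ∀ j : ℕ, IsInt (F x y (k + 1) (s₀ - j)) := by
      intro j
      induction j with
      | zero => simpa using hl s₀ le_rfl
      | succ j ihj =>
        have h1 := ih (by omega) (s₀ - (j + 1 : ℕ))
        have h2 := F_diff x y k (s₀ - (j + 1 : ℕ))
        have e : s₀ - ((j + 1 : ℕ) : ℤ) + 1 = s₀ - j := by push_cast; ring
        rw [e] at h2
        have h3 : F x y (k + 1) (s₀ - ((j + 1 : ℕ) : ℤ)) =
            F x y (k + 1) (s₀ - j) - F x y k (s₀ - ((j + 1 : ℕ) : ℤ)) := by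
          linear_combination -h2
        rw [h3]
        exact ihj.sub h1
    intro s
    rcases le_or_gt s₀ s with hs | hs
    · exact hl s hs
    · have := key (s₀ - s).toNat
      rwa [show s₀ - ((s₀ - s).toNat : ℤ) = s by omega] at this

lemma int_norm {x y : ℂ} {n : ℕ} (h : ∀ k ≤ n, ∀ s : ℤ, IsInt (F x y k s)) {k : ℕ}
    (hk : 2 * k ≤ n) (s : ℤ) : IsInt (2 * (bin (x + s) k * bin (y + s) k)) := by
  have h1 := h k (by omega) s
  have h2 : IsInt (bin (x + s) k * bin (x + s) k + bin (y + s) k * bin (y + s) k) := by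
    rw [bin_sq, bin_sq, ← sum_add_distrib]
    refine isInt_sum _ _ fun j hj => ?_
    rw [← mul_add]
    have hj' := mem_range.1 hj
    exact (isInt_nat _).mul (h (k + j) (by omega) s)
  have h3 := (h1.mul h1).sub h2
  have e : F x y k s * F x y k s - (bin (x + s) k * bin (x + s) k + bin (y + s) k * bin (y + s) k) =
      2 * (bin (x + s) k * bin (y + s) k) := by
    unfold F; ring
  rwa [e] at h3

/-- `(k!)² ∣ 2 ∏_{i < k} q(s - i)` with `q(t) = t² + c₁ t + c₂`, if `2 k ≤ n` -/
lemma norm_dvd {x y : ℂ} {c₁ c₂ : ℤ} (hs : x + y = c₁) (hp : x * y = c₂) {n : ℕ}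
    (h : ∀ k ≤ n, ∀ s : ℤ, IsInt (F x y k s)) {k : ℕ} (hk : 2 * k ≤ n) (s : ℤ) :
    ((k.factorial : ℤ) ^ 2) ∣ 2 * ∏ i ∈ range k, ((s - i) ^ 2 + c₁ * (s - i) + c₂) := by
  obtain ⟨m, hm⟩ := int_norm h hk s
  refine ⟨m, ?_⟩
  have h1 : (bin (x + s) k * bin (y + s) k) * ((k.factorial : ℂ)) ^ 2 =
      ∏ i ∈ range k, ((((s - i) ^ 2 + c₁ * (s - i) + c₂ : ℤ)) : ℂ) := by
    unfold bin
    have hf := fact_ne k
    have e1 : (∏ i ∈ range k, (x + s - i)) / (k.factorial : ℂ) *
        ((∏ i ∈ range k, (y + s - i)) / (k.factorial : ℂ)) * ((k.factorial : ℂ)) ^ 2 =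
        (∏ i ∈ range k, (x + s - i)) * ∏ i ∈ range k, (y + s - i) := by
      field_simp
    rw [e1, ← prod_mul_distrib]
    refine prod_congr rfl fun i _ => ?_
    push_cast
    rw [← hs, ← hp]
    ring
  have h2 : ((2 * ∏ i ∈ range k, ((s - i) ^ 2 + c₁ * (s - i) + c₂) : ℤ) : ℂ) =
      (((k.factorial : ℤ) ^ 2 * m : ℤ) : ℂ) := by
    push_cast
    push_cast at h1
    rw [← h1]
    have : (m : ℂ) = 2 * (bin (x + s) k * bin (y + s) k) := hm.symm
    rw [this]
    ring
  exact_mod_cast h2

end Pool.Agent.Q233.SW
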