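import Pool.Agent.Q233.SW.Arch

set_option autoImplicit false

/-!
# Integer combinations of binomial polynomials at complex points

If `∑ m_i C(z_i + s, n)` is an integer for all large `s`, `|m_i| ≤ 1`, and `n` is large compared with
the diameter of the set of the `z_i`, then every `z_i` which occurs with non-zero total multiplicity
is an integer.
-/

open Finset

namespace Pool.Agent.Q233.SW

variable {ι : Type*} [Fintype ι]

/-- the combination -/
noncomputable def G (m : ι → ℤ) (z : ι → ℂ) (k : ℕ) (s : ℤ) : ℂ := ∑ i, (m i : ℂ) * bin (z i + s) k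

lemma G_diff (m : ι → ℤ) (z : ι → ℂ) (k : ℕ) (s : ℤ) :
    G m z (k + 1) (s + 1) - G m z (k + 1) s = G m z k s := by
  unfold G
  rw [← sum_sub_distrib]
  refine sum_congr rfl fun i _ => ?_
  have h1 := bin_diff (z i + s) k
  have e1 : z i + ((s + 1 : ℤ) : ℂ) = z i + s + 1 := by push_cast; ring
  rw [e1, ← mul_sub, h1]

lemma G_int_large (m : ι → ℤ) (z : ι → ℂ) (n : ℕ) (s₀ : ℤ)
    (h : ∀ s : ℤ, s₀ ≤ s → IsInt (G m z n s)) :
    ∀ k ≤ n, ∀ s : ℤ, s₀ ≤ s → IsInt (G m z k s) := by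
  have key : ∀ j ≤ n, ∀ s : ℤ, s₀ ≤ s → IsInt (G m z (n - j) s) := by
    intro j
    induction j with
    | zero => intro _ s hs; simpa using h s hs
    | succ j ih =>
      intro hj s hs
      have e : n - j = (n - (j + 1)) + 1 := by omega
      have h1 := ih (by omega) s hs
      have h2 := ih (by omega) (s + 1) (by omega)
      rw [e] at h1 h2
      rw [← G_diff]
      exact h2.sub h1
  intro k hk s hs
  have := key (n - k) (by omega) s hs
  rwa [show n - (n - k) = k by omega] at this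

lemma G_int_all (m : ι → ℤ) (z : ι → ℂ) (n : ℕ) (s₀ : ℤ)
    (h : ∀ s : ℤ, s₀ ≤ s → IsInt (G m z n s)) :
    ∀ k ≤ n, ∀ s : ℤ, IsInt (G m z k s) := by
  intro k
  induction k with
  | zero => intro _ s; exact ⟨∑ i, m i, by simp [G]⟩
  | succ k ih =>
    intro hk
    have hl := G_int_large m z n s₀ h (k + 1) hk
    have key : ∀ j : ℕ, IsInt (G m z (k + 1) (s₀ - j)) := by
      intro j
      induction j with
      | zero => simpa using hl s₀ le_rfl
      | succ j ihj =>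
        have h1 := ih (by omega) (s₀ - (j + 1 : ℕ))
        have h2 := G_diff m z k (s₀ - (j + 1 : ℕ))
        have e : s₀ - ((j + 1 : ℕ) : ℤ) + 1 = s₀ - j := by push_cast; ring
        rw [e] at h2
        have h3 : G m z (k + 1) (s₀ - ((j + 1 : ℕ) : ℤ)) =
            G m z (k + 1) (s₀ - j) - G m z k (s₀ - ((j + 1 : ℕ) : ℤ)) := by
          linear_combination -h2
        rw [h3]
        exact ihj.sub h1
    intro s
    rcases le_or_gt s₀ s with hs | hs
    · exact hl s hs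
    · have := key (s₀ - s).toNat
      rwa [show s₀ - ((s₀ - s).toNat : ℤ) = s by omega] at this

lemma bin_small {k : ℕ} (hk : 2 ≤ k) (z : ℂ)
    (h1 : (z.re - ((k : ℝ) - 1) / 2) ^ 2 + z.im ^ 2 ≤ ((k : ℝ) / 8) ^ 2) :
    ‖bin z k‖ ≤ (7 / 8 : ℝ) ^ k / 2 := by
  have hk0 : (0 : ℝ) < k := by exact_mod_cast (by omega : 0 < k)
  have hf : (0 : ℝ) < k.factorial := by exact_mod_cast k.factorial_pos
  obtain ⟨M, hM⟩ : ∃ M, M = (k : ℝ) ^ 2 * (7 / 8) ^ 2 * Real.exp (-2) := ⟨_, rfl⟩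
  have hM0 : 0 < M := by rw [hM]; positivity
  have he : (2 : ℝ) / 15 ≤ Real.exp (-2) := by
    rw [Real.exp_neg, le_inv_comm₀ (by norm_num) (Real.exp_pos 2)]
    have := exp_two_lt
    norm_num
    linarith
  have hprod : ∏ i ∈ range k, ((z.re - i) ^ 2 + z.im ^ 2) ≤ M ^ k := by
    refine prod_le_pow (fun i => (z.re - i) ^ 2 + z.im ^ 2) (fun i => by positivity) hM0 ?_
    rw [sum_sq]
    refine mul_le_mul_of_nonneg_left ?_ hk0.le
    rw [hM]
    have : (k : ℝ) ^ 2 * (7 / 8) ^ 2 * (2 / 15) ≤ (k : ℝ) ^ 2 * (7 / 8) ^ 2 * Real.exp (-2) :=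
      mul_le_mul_of_nonneg_left he (by positivity)
    nlinarith
  have hnorm : ‖∏ i ∈ range k, (z - i)‖ ^ 2 = ∏ i ∈ range k, ((z.re - i) ^ 2 + z.im ^ 2) := by
    rw [Complex.norm_prod, ← prod_pow]
    refine prod_congr rfl fun i _ => ?_
    rw [Complex.sq_norm, Complex.normSq_apply]
    simp
    ring
  have hMk : M ^ k = ((k : ℝ) ^ k * (7 / 8) ^ k * Real.exp (-(k : ℝ))) ^ 2 := by
    rw [hM, mul_pow, mul_pow, mul_pow, mul_pow, ← pow_mul, ← pow_mul, ← pow_mul, ← pow_mul,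
      mul_comm 2 k, ← Real.exp_nat_mul, ← Real.exp_nat_mul]
    congr 2
    push_cast; ring
  have h3 : ‖∏ i ∈ range k, (z - i)‖ ≤ (k : ℝ) ^ k * (7 / 8) ^ k * Real.exp (-(k : ℝ)) := by
    refine (sq_le_sq₀ (norm_nonneg _) (by positivity)).1 ?_
    rw [hnorm, ← hMk]; exact hprod
  have h4 : (k : ℝ) ^ k * Real.exp (-(k : ℝ)) ≤ (k.factorial : ℝ) / 2 := by
    have := exp_gt k hk
    rw [Real.exp_neg, ← div_eq_mul_inv, div_le_iff₀ (Real.exp_pos _)]
    have h5 : (k : ℝ) ^ k / (k.factorial : ℝ) < Real.exp k / 2 := by linarith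
    rw [div_lt_iff₀ hf] at h5
    linarith
  unfold bin
  rw [norm_div, Complex.norm_natCast, div_le_iff₀ hf]
  calc _ ≤ _ := h3
    _ = (7 / 8) ^ k * ((k : ℝ) ^ k * Real.exp (-(k : ℝ))) := by ring
    _ ≤ (7 / 8) ^ k * ((k.factorial : ℝ) / 2) := mul_le_mul_of_nonneg_left h4 (by positivity)
    _ = _ := by ring

lemma pow_bound (k : ℕ) : (7 / 8 : ℝ) ^ k ≤ 7 / (7 + k) := by
  have h := one_add_mul_le_pow (a := (1 / 7 : ℝ)) (by norm_num) k
  have e : (1 + 1 / 7 : ℝ) = 8 / 7 := by norm_num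
  rw [e] at h
  have h1 : (7 / 8 : ℝ) ^ k * (8 / 7) ^ k = 1 := by rw [← mul_pow]; norm_num
  rw [le_div_iff₀ (by positivity)]
  have h2 : (0 : ℝ) ≤ (7 / 8) ^ k := by positivity
  nlinarith

/-- the values vanish -/
lemma G_zero {m : ι → ℤ} {z : ι → ℂ} {n : ℕ} (hm : ∀ i, |m i| ≤ 1)
    (h : ∀ k ≤ n, ∀ s : ℤ, IsInt (G m z k s)) {w ρ : ℝ} (hw : ∀ i, ‖z i - w‖ ≤ ρ)
    (hn : 8 * ρ + 5 * Fintype.card ι + 3 ≤ n) (hι : 1 ≤ Fintype.card ι) (hρ : 0 ≤ ρ) :
    ∃ s : ℤ, ∀ k ≤ n, n < k + Fintype.card ι → G m z k s = 0 := by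
  obtain ⟨L, hL⟩ : ∃ L, L = Fintype.card ι := ⟨_, rfl⟩
  rw [← hL] at hn hι ⊢
  have hL1 : (1 : ℝ) ≤ L := by exact_mod_cast hι
  refine ⟨⌊((n : ℝ) - 1) / 2 - w⌋, fun k hk hkL => (h k hk _).eq_zero ?_⟩
  obtain ⟨s, hs⟩ : ∃ s, s = ⌊((n : ℝ) - 1) / 2 - w⌋ := ⟨_, rfl⟩
  rw [← hs]
  have f1 : (s : ℝ) ≤ ((n : ℝ) - 1) / 2 - w := by rw [hs]; exact Int.floor_le _
  have f2 : ((n : ℝ) - 1) / 2 - w < s + 1 := by rw [hs]; exact Int.lt_floor_add_one _
  have hk1 : (k : ℝ) ≤ n := by exact_mod_cast hk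
  have hk2 : (n : ℝ) + 1 ≤ k + L := by exact_mod_cast hkL
  have hk3 : 4 * (L : ℝ) + 4 ≤ k := by linarith
  have hk4 : 2 ≤ k := by
    have : (2 : ℝ) ≤ k := by linarith
    exact_mod_cast this
  have hsmall : ∀ i, ‖bin (z i + s) k‖ ≤ (7 / 8 : ℝ) ^ k / 2 := by
    intro i
    refine bin_small hk4 _ ?_
    have h1 := hw i
    have h2 : ‖(z i + s) - (((k : ℝ) - 1) / 2 : ℝ)‖ ≤ (k : ℝ) / 8 := by
      have e : (z i + s) - (((k : ℝ) - 1) / 2 : ℝ) =
          (z i - w) + ((w + s - ((k : ℝ) - 1) / 2 : ℝ) : ℂ) := by push_cast; ring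
      rw [e]
      refine (norm_add_le _ _).trans ?_
      rw [Complex.norm_real, Real.norm_eq_abs]
      have h3 : |w + s - ((k : ℝ) - 1) / 2| ≤ (L + 1) / 2 := by
        rw [abs_le]; constructor <;> linarith
      linarith
    have h3 : ‖(z i + s) - (((k : ℝ) - 1) / 2 : ℝ)‖ ^ 2 ≤ ((k : ℝ) / 8) ^ 2 :=
      pow_le_pow_left₀ (norm_nonneg _) h2 2
    rw [Complex.sq_norm, Complex.normSq_apply] at h3
    simp only [Complex.sub_re, Complex.sub_im, Complex.ofReal_re, Complex.ofReal_im, sub_zero] at h3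
    nlinarith
  unfold G
  refine (norm_sum_le _ _).trans_lt ?_
  have hsum : ∑ i, ‖(m i : ℂ) * bin (z i + s) k‖ ≤ ∑ _i : ι, (7 / 8 : ℝ) ^ k / 2 := by
    refine sum_le_sum fun i _ => ?_
    rw [norm_mul]
    have h1 : ‖(m i : ℂ)‖ ≤ 1 := by
      rw [Complex.norm_intCast]; exact_mod_cast hm i
    calc _ ≤ 1 * ((7 / 8 : ℝ) ^ k / 2) := mul_le_mul h1 (hsmall i) (norm_nonneg _) zero_le_one
      _ = _ := one_mul _
  refine hsum.trans_lt ?_
  rw [sum_const, card_univ, ← hL, nsmul_eq_mul]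
  have h1 := pow_bound k
  have h2 : (7 : ℝ) / (7 + k) ≤ 7 / (4 * L + 11) := by
    apply div_le_div_of_nonneg_left <;> linarith
  have h3 : (L : ℝ) * ((7 / 8 : ℝ) ^ k / 2) ≤ L * ((7 / (4 * L + 11)) / 2) := by
    refine mul_le_mul_of_nonneg_left ?_ (by linarith)
    linarith
  refine h3.trans_lt ?_
  rw [div_div, ← mul_div_assoc, div_lt_one (by positivity)]
  linarith

/-- all moments vanish -/
lemma moment {m : ι → ℤ} {z : ι → ℂ} {K L : ℕ} {s : ℤ}
    (h : ∀ j < L, G m z (K + j) s = 0) : ∀ P : Polynomial ℂ, P.degree < (L : ℕ) →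
      ∑ i, (m i : ℂ) * bin (z i + s) K * P.eval (z i + s) = 0 := by
  induction L with
  | zero =>
    intro P hP
    have : P = 0 := by
      rw [← Polynomial.degree_eq_bot]
      simpa using hP
    simp [this]
  | succ L ih =>
    intro P hP
    have ih' := ih fun j hj => h j (by omega)
    -- the monic polynomial `∏_{l < L} (X - K - l)`
    obtain ⟨Q, hQ⟩ : ∃ Q : Polynomial ℂ, Q = ∏ l ∈ range L,
        (Polynomial.X - Polynomial.C ((K : ℂ) + l)) := ⟨_, rfl⟩
    have hQm : Q.Monic := by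
      rw [hQ]; exact Polynomial.monic_prod_of_monic _ _ fun i _ => Polynomial.monic_X_sub_C _
    have hQd : Q.natDegree = L := by
      rw [hQ, Polynomial.natDegree_prod_of_monic _ _ fun i _ => Polynomial.monic_X_sub_C _]
      rw [sum_congr rfl fun (l : ℕ) _ => Polynomial.natDegree_X_sub_C ((K : ℂ) + (l : ℂ))]
      simp
    have hQd' : Q.degree = L := by
      rw [Polynomial.degree_eq_natDegree hQm.ne_zero, hQd]
    have hbin : ∀ w : ℂ, bin w K * Q.eval w =
        ((K + L).factorial : ℂ) / (K.factorial : ℂ) * bin w (K + L) := by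
      intro w
      unfold bin
      have h1 := fact_ne K
      have h2 := fact_ne (K + L)
      rw [prod_range_add, hQ, Polynomial.eval_prod]
      have e : ∏ l ∈ range L, Polynomial.eval w (Polynomial.X - Polynomial.C ((K : ℂ) + l)) =
          ∏ l ∈ range L, (w - ((K + l : ℕ) : ℂ)) := by
        refine prod_congr rfl fun l _ => ?_
        simp
      rw [e]
      field_simp
    have hQ0 : ∑ i, (m i : ℂ) * bin (z i + s) K * Q.eval (z i + s) = 0 := by
      have h1 := h L (by omega)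
      unfold G at h1
      have : ∑ i, (m i : ℂ) * bin (z i + s) K * Q.eval (z i + s) =
          ((K + L).factorial : ℂ) / (K.factorial : ℂ) *
            ∑ i, (m i : ℂ) * bin (z i + s) (K + L) := by
        rw [mul_sum]
        refine sum_congr rfl fun i _ => ?_
        rw [mul_assoc, hbin]; ring
      rw [this, h1, mul_zero]
    -- split off the leading term
    have hR : (P - Polynomial.C (P.coeff L) * Q).degree < (L : ℕ) := by
      rw [Polynomial.degree_lt_iff_coeff_zero]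
      intro t ht
      rw [Polynomial.coeff_sub, Polynomial.coeff_C_mul]
      rcases Nat.eq_or_lt_of_le ht with h1 | h1
      · subst h1
        have : Q.coeff L = 1 := by
          have := hQm.coeff_natDegree
          rwa [hQd] at this
        rw [this]; ring
      · have c1 : P.coeff t = 0 :=
          Polynomial.coeff_eq_zero_of_degree_lt (hP.trans_le (by exact_mod_cast h1))
        have c2 : Q.coeff t = 0 :=
          Polynomial.coeff_eq_zero_of_degree_lt (by rw [hQd']; exact_mod_cast h1)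
        rw [c1, c2]; simp
    have h2 := ih' _ hR
    have h3 : ∑ i, (m i : ℂ) * bin (z i + s) K * P.eval (z i + s) =
        ∑ i, (m i : ℂ) * bin (z i + s) K * (P - Polynomial.C (P.coeff L) * Q).eval (z i + s) +
          P.coeff L * ∑ i, (m i : ℂ) * bin (z i + s) K * Q.eval (z i + s) := by
      rw [mul_sum, ← sum_add_distrib]
      refine sum_congr rfl fun i _ => ?_
      rw [Polynomial.eval_sub, Polynomial.eval_mul, Polynomial.eval_C]
      ring
    rw [h3, h2, hQ0]; simp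

open Classical in
/-- points of non-zero total multiplicity are integers -/
lemma point_int {m : ι → ℤ} {z : ι → ℂ} {n : ℕ} (hm : ∀ i, |m i| ≤ 1)
    (h : ∀ k ≤ n, ∀ s : ℤ, IsInt (G m z k s)) {w ρ : ℝ} (hw : ∀ i, ‖z i - w‖ ≤ ρ)
    (hn : 8 * ρ + 5 * Fintype.card ι + 3 ≤ n) (i₀ : ι)
    (hi : ∑ i with z i = z i₀, m i ≠ 0) : IsInt (z i₀) := by
  have hι : 1 ≤ Fintype.card ι := Fintype.card_pos_iff.2 ⟨i₀⟩
  have hρ : 0 ≤ ρ := (norm_nonneg _).trans (hw i₀)
  obtain ⟨s, hs⟩ := G_zero hm h hw hn hι hρ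
  obtain ⟨L, hL⟩ : ∃ L, L = Fintype.card ι := ⟨_, rfl⟩
  have hnL : L ≤ n := by
    have : (L : ℝ) ≤ n := by rw [hL]; linarith [Nat.cast_nonneg (α := ℝ) (Fintype.card ι)]
    exact_mod_cast this
  obtain ⟨K, hK⟩ : ∃ K, K = n + 1 - L := ⟨_, rfl⟩
  have hz : ∀ j < L, G m z (K + j) s = 0 := fun j hj => hs _ (by omega) (by omega)
  -- Lagrange polynomial
  obtain ⟨S, hS⟩ : ∃ S : Finset ℂ, S = (univ.image z).erase (z i₀) := ⟨_, rfl⟩
  obtain ⟨P, hP⟩ : ∃ P : Polynomial ℂ, P = ∏ v ∈ S, (Polynomial.X - Polynomial.C (v + s)) :=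
    ⟨_, rfl⟩
  have hPd : P.degree < (L : ℕ) := by
    have h1 : P.Monic := by
      rw [hP]; exact Polynomial.monic_prod_of_monic _ _ fun i _ => Polynomial.monic_X_sub_C _
    have h2 : P.natDegree = S.card := by
      rw [hP, Polynomial.natDegree_prod_of_monic _ _ fun i _ => Polynomial.monic_X_sub_C _]
      rw [sum_congr rfl fun (v : ℂ) _ => Polynomial.natDegree_X_sub_C (v + s)]
      simp
    rw [Polynomial.degree_eq_natDegree h1.ne_zero, h2]
    have h3 : S.card < (univ.image z).card := by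
      rw [hS]
      exact card_erase_lt_of_mem (mem_image_of_mem z (mem_univ i₀))
    have h4 : (univ.image z).card ≤ L := by
      rw [hL]; exact card_image_le
    exact_mod_cast h3.trans_le h4
  have h1 := moment hz P hPd
  have h2 : ∑ i, (m i : ℂ) * bin (z i + s) K * P.eval (z i + s) =
      ((∑ i with z i = z i₀, m i : ℤ) : ℂ) * (bin (z i₀ + s) K * P.eval (z i₀ + s)) := by
    rw [← sum_filter_add_sum_filter_not univ (fun i => z i = z i₀)]
    have e1 : ∑ i with ¬ z i = z i₀, (m i : ℂ) * bin (z i + s) K * P.eval (z i + s) = 0 := by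
      refine sum_eq_zero fun i hi => ?_
      have hi' := (mem_filter.1 hi).2
      have : P.eval (z i + s) = 0 := by
        rw [hP, Polynomial.eval_prod]
        refine prod_eq_zero (i := z i) ?_ ?_
        · rw [hS, mem_erase]; exact ⟨hi', mem_image_of_mem z (mem_univ i)⟩
        · simp
      rw [this, mul_zero]
    rw [e1, add_zero, Int.cast_sum, sum_mul]
    refine sum_congr rfl fun i hi => ?_
    rw [(mem_filter.1 hi).2]; ring
  rw [h2] at h1
  have h3 : ((∑ i with z i = z i₀, m i : ℤ) : ℂ) ≠ 0 := by exact_mod_cast hi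
  have h4 : P.eval (z i₀ + s) ≠ 0 := by
    rw [hP, Polynomial.eval_prod]
    refine prod_ne_zero_iff.2 fun v hv => ?_
    rw [hS, mem_erase] at hv
    simp only [Polynomial.eval_sub, Polynomial.eval_X, Polynomial.eval_C]
    intro h0
    exact hv.1 (by linear_combination -h0)
  have h5 : bin (z i₀ + s) K = 0 := by
    rcases mul_eq_zero.1 h1 with h | h
    · exact absurd h h3
    · rcases mul_eq_zero.1 h with h | h
      · exact h
      · exact absurd h h4
  unfold bin at h5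
  rcases div_eq_zero_iff.1 h5 with h6 | h6
  · obtain ⟨i, -, hi⟩ := prod_eq_zero_iff.1 h6
    exact ⟨i - s, by push_cast; linear_combination hi⟩
  · exact absurd h6 (fact_ne K)

/-- the exponential sum is periodic -/
lemma exp_periodic {m : ι → ℤ} {z : ι → ℂ} {n : ℕ} (hm : ∀ i, |m i| ≤ 1)
    (h : ∀ k ≤ n, ∀ s : ℤ, IsInt (G m z k s)) {w ρ : ℝ} (hw : ∀ i, ‖z i - w‖ ≤ ρ)
    (hn : 8 * ρ + 5 * Fintype.card ι + 3 ≤ n) (u : ℂ) :
    ∑ i, (m i : ℂ) * Complex.exp (z i * (u + 2 * Real.pi * Complex.I)) =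
      ∑ i, (m i : ℂ) * Complex.exp (z i * u) := by
  classical
  have hfib : ∀ f : ℂ → ℂ, ∑ i, (m i : ℂ) * f (z i) =
      ∑ v ∈ univ.image z, ((∑ i with z i = v, m i : ℤ) : ℂ) * f v := by
    intro f
    rw [← sum_fiberwise_of_maps_to (t := univ.image z) (g := z)
      (fun i _ => mem_image_of_mem z (mem_univ i))]
    refine sum_congr rfl fun v _ => ?_
    rw [Int.cast_sum, sum_mul]
    refine sum_congr rfl fun i hi => ?_
    rw [(mem_filter.1 hi).2]
  rw [hfib fun v => Complex.exp (v * (u + 2 * Real.pi * Complex.I)),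
    hfib fun v => Complex.exp (v * u)]
  refine sum_congr rfl fun v hv => ?_
  obtain ⟨i₀, -, rfl⟩ := mem_image.1 hv
  by_cases h0 : ∑ i with z i = z i₀, m i = 0
  · rw [h0]; simp
  · obtain ⟨k, hk⟩ := point_int hm h hw hn i₀ h0
    congr 1
    rw [mul_add, Complex.exp_add]
    have : Complex.exp (z i₀ * (2 * Real.pi * Complex.I)) = 1 := by
      rw [hk]; exact Complex.exp_int_mul_two_pi_mul_I k
    rw [this, mul_one]

end Pool.Agent.Q233.SW
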