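import Mathlib

set_option autoImplicit false

/-!
# Quadratic polynomials whose values over blocks are divisible by factorials

If `(k!)² ∣ 2 ∏_{i < k} q(s - i)` for all integers `s` and all `k ≤ K`, where
`q(t) = t² + c₁ t + c₂`, then `lcm(1, ..., K)² ∣ 2 q(a)` for some integer `a`.
-/

open Finset

namespace Pool.Agent.Q233.SW

lemma pInt_dvd {p : ℕ} [hp : Fact p.Prime] {a : ℤ} (ha : a ≠ 0) (e : ℕ) :
    ((p : ℤ) ^ e ∣ a) ↔ e ≤ padicValInt p a := by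
  rw [padicValInt_dvd_iff]
  simp [ha]

/-- the local step -/
lemma local_exists {c₁ c₂ : ℤ} {p m : ℕ} (hp : p.Prime)
    (h : ∀ s : ℤ, (((p ^ m).factorial : ℤ) ^ 2) ∣
      2 * ∏ i ∈ range (p ^ m), ((s - i) ^ 2 + c₁ * (s - i) + c₂)) :
    ∃ a : ℤ, (p : ℤ) ^ (2 * m) ∣ 2 * (a ^ 2 + c₁ * a + c₂) := by
  classical
  have : Fact p.Prime := ⟨hp⟩
  by_contra hcon
  push Not at hcon
  have hp0 : (p : ℤ) ≠ 0 := by exact_mod_cast hp.ne_zero
  have hpp : Prime (p : ℤ) := Nat.prime_iff_prime_int.1 hp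
  -- the maximal exponent
  have hbd : ∀ e : ℕ, (∃ a : ℤ, (p : ℤ) ^ e ∣ a ^ 2 + c₁ * a + c₂) → e < 2 * m := by
    rintro e ⟨a, ha⟩
    by_contra he
    push Not at he
    exact hcon a ((pow_dvd_pow _ he).trans (ha.mul_left 2))
  obtain ⟨V, hV1, hV2⟩ : ∃ V : ℕ, (∃ a : ℤ, (p : ℤ) ^ V ∣ a ^ 2 + c₁ * a + c₂) ∧
      ∀ a : ℤ, ¬ (p : ℤ) ^ (V + 1) ∣ a ^ 2 + c₁ * a + c₂ := by
    by_contra hno
    push Not at hno
    have key : ∀ e : ℕ, ∃ a : ℤ, (p : ℤ) ^ e ∣ a ^ 2 + c₁ * a + c₂ := by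
      intro e
      induction e with
      | zero => exact ⟨0, by simp⟩
      | succ e ih => exact hno e ih
    exact absurd (hbd _ (key (2 * m))) (lt_irrefl _)
  obtain ⟨a₀, ha₀⟩ := hV1
  obtain ⟨b, hb⟩ : ∃ b : ℤ, b = 2 * a₀ + c₁ := ⟨_, rfl⟩
  obtain ⟨c, hc⟩ : ∃ c : ℤ, c = a₀ ^ 2 + c₁ * a₀ + c₂ := ⟨_, rfl⟩
  have hQ : ∀ s : ℤ, (a₀ + s) ^ 2 + c₁ * (a₀ + s) + c₂ = s ^ 2 + b * s + c := by
    intro s; rw [hb, hc]; ring
  have hne : ∀ s : ℤ, s ^ 2 + b * s + c ≠ 0 := by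
    intro s h0
    refine hV2 (a₀ + s) ?_
    rw [hQ, h0]
    exact dvd_zero _
  rw [← hc] at ha₀
  have hQV : ∀ s : ℤ, ¬ (p : ℤ) ^ (V + 1) ∣ s ^ 2 + b * s + c := by
    intro s; rw [← hQ]; exact hV2 _
  -- claim 1: `p ^ V ∣ b ^ 2`
  have hbV : b = 0 ∨ V ≤ 2 * padicValInt p b := by
    by_contra hlt
    push Not at hlt
    obtain ⟨hb0, hlt⟩ := hlt
    set β := padicValInt p b with hβ
    obtain ⟨b', hb'⟩ := (pInt_dvd hb0 β).2 le_rfl
    obtain ⟨c', hc'⟩ := ha₀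
    have hb'n : ¬ (p : ℤ) ∣ b' := by
      intro hd
      obtain ⟨b'', hb''⟩ := hd
      have : (p : ℤ) ^ (β + 1) ∣ b := ⟨b'', by rw [hb', hb'']; ring⟩
      have := (pInt_dvd hb0 (β + 1)).1 this
      omega
    have hcop : IsCoprime b' (p : ℤ) := (hpp.coprime_iff_not_dvd.2 hb'n).symm
    obtain ⟨u, v, huv⟩ := hcop
    -- `b' * (- c' u) ≡ - c'` mod `p`
    refine hQV ((p : ℤ) ^ (V - β) * (-c' * u)) ?_
    have e1 : (p : ℤ) ^ (V + 1) ∣ ((p : ℤ) ^ (V - β) * (-c' * u)) ^ 2 := by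
      rw [mul_pow, ← pow_mul]
      exact Dvd.dvd.mul_right (pow_dvd_pow _ (by omega)) _
    have e2 : (p : ℤ) ^ (V + 1) ∣ b * ((p : ℤ) ^ (V - β) * (-c' * u)) + c := by
      rw [hb', hc']
      refine ⟨c' * v, ?_⟩
      have e3 : (p : ℤ) ^ β * (p : ℤ) ^ (V - β) = (p : ℤ) ^ V := by
        rw [← pow_add]; congr 1; omega
      calc (p : ℤ) ^ β * b' * ((p : ℤ) ^ (V - β) * (-c' * u)) + (p : ℤ) ^ V * c'
          = ((p : ℤ) ^ β * (p : ℤ) ^ (V - β)) * (b' * (-c' * u)) + (p : ℤ) ^ V * c' := by ring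
        _ = (p : ℤ) ^ V * (c' * (1 - u * b')) := by rw [e3]; ring
        _ = (p : ℤ) ^ V * (c' * (v * p)) := by rw [← huv]; ring
        _ = (p : ℤ) ^ (V + 1) * (c' * v) := by rw [pow_succ]; ring
    have e4 := dvd_add e1 e2
    rwa [← add_assoc] at e4
  -- claim 2
  have hval : ∀ s : ℤ, s ≠ 0 →
      padicValInt p (s ^ 2 + b * s + c) ≤ 2 * padicValInt p s := by
    intro s hs
    set σ := padicValInt p s with hσ
    by_contra hlt
    push Not at hlt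
    have hd : (p : ℤ) ^ (2 * σ + 1) ∣ s ^ 2 + b * s + c := (pInt_dvd (hne s) _).2 hlt
    rcases Nat.lt_or_ge (2 * σ) V with h1 | h1
    · -- `p ^ (2σ+1)` divides `c` and `b s`
      have d1 : (p : ℤ) ^ (2 * σ + 1) ∣ c := (pow_dvd_pow _ (by omega)).trans ha₀
      have d2 : (p : ℤ) ^ (2 * σ + 1) ∣ b * s := by
        rcases hbV with hb0 | hb1
        · rw [hb0, zero_mul]; exact dvd_zero _
        · by_cases hb0 : b = 0
          · rw [hb0, zero_mul]; exact dvd_zero _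
          have e1 : (p : ℤ) ^ (σ + 1) ∣ b := (pInt_dvd hb0 _).2 (by omega)
          have e2 : (p : ℤ) ^ σ ∣ s := (pInt_dvd hs _).2 le_rfl
          have e3 := mul_dvd_mul e1 e2
          rw [← pow_add] at e3
          rwa [show σ + 1 + σ = 2 * σ + 1 by ring] at e3
      have d3 : (p : ℤ) ^ (2 * σ + 1) ∣ s ^ 2 := by
        have := dvd_sub hd (dvd_add d2 d1)
        rwa [show s ^ 2 + b * s + c - (b * s + c) = s ^ 2 by ring] at this
      have d4 := (pInt_dvd (pow_ne_zero 2 hs) _).1 d3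
      rw [pow_two, padicValInt.mul hs hs] at d4
      omega
    · exact hQV s ((pow_dvd_pow _ (by omega)).trans hd)
  -- the product over the block
  have hprod : ∀ N : ℕ, padicValInt p (∏ s ∈ range N, (((s : ℤ) + 1) ^ 2 + b * (s + 1) + c)) ≤
      2 * padicValInt p (N.factorial : ℤ) := by
    intro N
    induction N with
    | zero => simp
    | succ N ih =>
      rw [prod_range_succ, padicValInt.mul (prod_ne_zero_iff.2 fun s _ => hne _) (hne _),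
        Nat.factorial_succ]
      push_cast
      rw [padicValInt.mul (by exact_mod_cast Nat.succ_ne_zero N)
        (by exact_mod_cast Nat.factorial_ne_zero N)]
      have := hval ((N : ℤ) + 1) (by positivity)
      omega
  obtain ⟨N, hN⟩ : ∃ N : ℕ, p ^ m = N + 1 := ⟨p ^ m - 1, by
    have := pow_pos hp.pos m; omega⟩
  have h1 := h (a₀ + N)
  rw [hN] at h1
  have hblock : ∏ i ∈ range (N + 1), ((a₀ + (N : ℤ) - i) ^ 2 + c₁ * (a₀ + N - i) + c₂) =
      c * ∏ s ∈ range N, (((s : ℤ) + 1) ^ 2 + b * (s + 1) + c) := by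
    rw [← Finset.prod_range_reflect]
    have e : ∀ j ∈ range (N + 1), (a₀ + (N : ℤ) - ((N + 1 - 1 - j : ℕ) : ℤ)) ^ 2 +
        c₁ * (a₀ + N - ((N + 1 - 1 - j : ℕ) : ℤ)) + c₂ = (j : ℤ) ^ 2 + b * j + c := by
      intro j hj
      have hj' := mem_range.1 hj
      have e2 : ((N + 1 - 1 - j : ℕ) : ℤ) = N - j := by omega
      rw [e2, ← hQ]
      ring
    rw [prod_congr rfl e, prod_range_succ']
    rw [mul_comm]
    congr 1
    push_cast; ring
  rw [hblock] at h1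
  have hc0 : c ≠ 0 := by have := hne 0; simpa using this
  have hP0 : ∏ s ∈ range N, (((s : ℤ) + 1) ^ 2 + b * (s + 1) + c) ≠ 0 :=
    prod_ne_zero_iff.2 fun s _ => hne _
  have hf : ((N + 1).factorial : ℤ) = (p : ℤ) ^ m * (N.factorial : ℤ) := by
    rw [Nat.factorial_succ, ← hN]; push_cast; ring
  rw [hf] at h1
  have hNf : (N.factorial : ℤ) ≠ 0 := by exact_mod_cast Nat.factorial_ne_zero N
  set w := padicValInt p (N.factorial : ℤ) with hw
  have h2 : (p : ℤ) ^ (2 * m + 2 * w) ∣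
      2 * (c * ∏ s ∈ range N, (((s : ℤ) + 1) ^ 2 + b * (s + 1) + c)) := by
    refine dvd_trans ?_ h1
    rw [mul_pow, ← pow_mul, pow_add, mul_comm m 2]
    refine mul_dvd_mul_left _ ?_
    rw [mul_comm 2 w, pow_mul]
    exact pow_dvd_pow_of_dvd ((pInt_dvd hNf _).2 le_rfl) 2
  have h20 : (2 : ℤ) * c ≠ 0 := mul_ne_zero two_ne_zero hc0
  rw [← mul_assoc] at h2
  have h3 := (pInt_dvd (mul_ne_zero h20 hP0) _).1 h2
  rw [padicValInt.mul h20 hP0] at h3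
  have h4 := hprod N
  have h5 : 2 * m ≤ padicValInt p (2 * c) := by omega
  exact hcon a₀ (by rw [← hc]; exact (pInt_dvd h20 _).2 h5)

lemma dvd_shift {c₁ c₂ M a d : ℤ} (h : M ∣ 2 * (a ^ 2 + c₁ * a + c₂)) (hd : M ∣ d - a) :
    M ∣ 2 * (d ^ 2 + c₁ * d + c₂) := by
  have e : 2 * (d ^ 2 + c₁ * d + c₂) =
      2 * (a ^ 2 + c₁ * a + c₂) + (d - a) * (2 * (d + a + c₁)) := by ring
  rw [e]
  exact dvd_add h (hd.mul_right _)

/-- combination of two coprime moduli -/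
lemma combine {c₁ c₂ M M' : ℤ} (hc : IsCoprime M M')
    (h : ∃ a : ℤ, M ∣ 2 * (a ^ 2 + c₁ * a + c₂)) (h' : ∃ a : ℤ, M' ∣ 2 * (a ^ 2 + c₁ * a + c₂)) :
    ∃ a : ℤ, M * M' ∣ 2 * (a ^ 2 + c₁ * a + c₂) := by
  obtain ⟨a, ha⟩ := h
  obtain ⟨b, hb⟩ := h'
  obtain ⟨u, v, huv⟩ := id hc
  refine ⟨a * (v * M') + b * (u * M), hc.mul_dvd (dvd_shift ha ⟨u * (b - a), ?_⟩)
    (dvd_shift hb ⟨v * (a - b), ?_⟩)⟩
  · linear_combination a * huv
  · linear_combination b * huv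

lemma prod_exists {c₁ c₂ : ℤ} {ι : Type*} (S : Finset ι) (M : ι → ℤ)
    (hc : (S : Set ι).Pairwise fun i j => IsCoprime (M i) (M j))
    (h : ∀ i ∈ S, ∃ a : ℤ, M i ∣ 2 * (a ^ 2 + c₁ * a + c₂)) :
    ∃ a : ℤ, ∏ i ∈ S, M i ∣ 2 * (a ^ 2 + c₁ * a + c₂) := by
  classical
  induction S using Finset.induction_on with
  | empty => exact ⟨0, by simp⟩
  | insert i S hi ih =>
    rw [prod_insert hi]
    refine combine ?_ (h i (mem_insert_self i S)) (ih ?_ fun j hj => h j (mem_insert_of_mem hj))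
    · refine IsCoprime.prod_right fun j hj => ?_
      exact hc (by simp) (by simp [hj]) (by rintro rfl; exact hi hj)
    · exact hc.mono (by simp)

lemma le_dvd_prod {K i : ℕ} (hi : 1 ≤ i) (hiK : i ≤ K) :
    i ∣ ∏ p ∈ (range (K + 1)).filter Nat.Prime, p ^ Nat.log p K := by
  rw [← Nat.factorization_prime_le_iff_dvd (by omega)
    (prod_ne_zero_iff.2 fun p hp => pow_ne_zero _ (mem_filter.1 hp).2.ne_zero)]
  intro p hp
  by_cases hpK : p ≤ K
  · have h1 : p ^ Nat.log p K ∣ ∏ p ∈ (range (K + 1)).filter Nat.Prime, p ^ Nat.log p K :=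
      dvd_prod_of_mem (fun p => p ^ Nat.log p K) (mem_filter.2 ⟨mem_range.2 (by omega), hp⟩)
    have h2 : Nat.log p K ≤
        (∏ p ∈ (range (K + 1)).filter Nat.Prime, p ^ Nat.log p K).factorization p :=
      (hp.pow_dvd_iff_le_factorization
        (prod_ne_zero_iff.2 fun p hp => pow_ne_zero _ (mem_filter.1 hp).2.ne_zero)).1 h1
    refine le_trans ?_ h2
    refine Nat.le_log_of_pow_le hp.one_lt ?_
    exact (Nat.le_of_dvd (by omega) (Nat.ordProj_dvd i p)).trans hiK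
  · rw [Nat.factorization_eq_zero_of_not_dvd]
    · exact Nat.zero_le _
    · intro hd
      exact hpK ((Nat.le_of_dvd (by omega) hd).trans hiK)

/-- **the global statement** -/
theorem lcm_dvd {c₁ c₂ : ℤ} {K : ℕ}
    (h : ∀ k ≤ K, ∀ s : ℤ, ((k.factorial : ℤ) ^ 2) ∣
      2 * ∏ i ∈ range k, ((s - i) ^ 2 + c₁ * (s - i) + c₂)) :
    ∃ a : ℤ, (((Finset.Icc 1 K).lcm id : ℕ) : ℤ) ^ 2 ∣ 2 * (a ^ 2 + c₁ * a + c₂) := by
  classical
  obtain ⟨a, ha⟩ := prod_exists (c₁ := c₁) (c₂ := c₂) ((range (K + 1)).filter Nat.Prime)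
    (fun p => (p : ℤ) ^ (2 * Nat.log p K)) (by
      intro p hp q hq hpq
      have hp' := (mem_filter.1 hp).2
      have hq' := (mem_filter.1 hq).2
      exact IsCoprime.pow (Nat.isCoprime_iff_coprime.2 ((Nat.coprime_primes hp' hq').2 hpq)))
    (by
      intro p hp
      obtain ⟨hp1, hp2⟩ := mem_filter.1 hp
      have hK : K ≠ 0 := by
        rintro rfl
        have := mem_range.1 hp1
        have := hp2.two_le
        omega
      exact local_exists hp2 (h _ (Nat.pow_log_le_self p hK)))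
  refine ⟨a, dvd_trans ?_ ha⟩
  have h1 : (Finset.Icc 1 K).lcm id ∣ ∏ p ∈ (range (K + 1)).filter Nat.Prime, p ^ Nat.log p K :=
    Finset.lcm_dvd fun i hi => le_dvd_prod (Finset.mem_Icc.1 hi).1 (Finset.mem_Icc.1 hi).2
  have h2 := pow_dvd_pow_of_dvd h1 2
  rw [← Finset.prod_pow] at h2
  have h3 : (((Finset.Icc 1 K).lcm id : ℕ) : ℤ) ^ 2 ∣
      ((∏ p ∈ (range (K + 1)).filter Nat.Prime, (p ^ Nat.log p K) ^ 2 : ℕ) : ℤ) := by
    exact_mod_cast h2
  refine h3.trans (dvd_of_eq ?_)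
  push_cast
  refine prod_congr rfl fun p _ => ?_
  rw [← pow_mul, mul_comm]

end Pool.Agent.Q233.SW
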