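import Pool.Agent.Q233.SW.Bin
import Pool.Agent.Q233.SW.Loc
import Pool.Agent.Q233.SW.Arch

set_option autoImplicit false

/-!
# The full modulus
-/

open Finset

namespace Pool.Agent.Q233.SW

/-- `(k!)² ∣ (c₁² - 4 c₂) ∏_{i < k} q(s - i)` if `k + 1 ≤ n` -/
lemma disc_dvd {x y : ℂ} {c₁ c₂ : ℤ} (hs : x + y = c₁) (hp : x * y = c₂) {n : ℕ}
    (h : ∀ k ≤ n, ∀ s : ℤ, IsInt (F x y k s)) {k : ℕ} (hk : k + 1 ≤ n) (s : ℤ) :
    ((k.factorial : ℤ) ^ 2) ∣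
      (c₁ ^ 2 - 4 * c₂) * ∏ i ∈ range k, ((s - i) ^ 2 + c₁ * (s - i) + c₂) := by
  obtain ⟨T, hT⟩ := h k (by omega) s
  obtain ⟨W, hW⟩ := h (k + 1) hk s
  have hk1 : ((k : ℂ) + 1) ≠ 0 := by exact_mod_cast Nat.succ_ne_zero k
  obtain ⟨A, hA⟩ : ∃ A, A = bin (x + s) k := ⟨_, rfl⟩
  obtain ⟨B, hB⟩ : ∃ B, B = bin (y + s) k := ⟨_, rfl⟩
  unfold F at hT hW
  rw [bin_succ, bin_succ, ← hA, ← hB, ← add_div, div_eq_iff hk1] at hW
  rw [← hA, ← hB] at hT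
  -- `x A + y B` is the integer `(k + 1) W + (k - s) T`
  obtain ⟨U, hU⟩ : ∃ U : ℤ, U = (k + 1) * W + (k - s) * T := ⟨_, rfl⟩
  have hU' : x * A + y * B = (U : ℂ) := by
    rw [hU]; push_cast
    rw [← hT]
    linear_combination hW
  have hkey : ((c₁ ^ 2 - 4 * c₂ : ℤ) : ℂ) * (A * B) =
      ((c₁ * T * U - U ^ 2 - c₂ * T ^ 2 : ℤ) : ℂ) := by
    push_cast
    rw [← hs, ← hp, ← hU', ← hT]
    ring
  refine ⟨c₁ * T * U - U ^ 2 - c₂ * T ^ 2, ?_⟩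
  have h1 : (A * B) * ((k.factorial : ℂ)) ^ 2 =
      ∏ i ∈ range k, ((((s - i) ^ 2 + c₁ * (s - i) + c₂ : ℤ)) : ℂ) := by
    rw [hA, hB]
    unfold bin
    have hf := fact_ne k
    have e1 : (∏ i ∈ range k, (x + s - i)) / (k.factorial : ℂ) *
        ((∏ i ∈ range k, (y + s - i)) / (k.factorial : ℂ)) * ((k.factorial : ℂ)) ^ 2 =
        (∏ i ∈ range k, (x + s - i)) * ∏ i ∈ range k, (y + s - i) := by
      field_simp
    rw [e1, ← prod_mul_distrib]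
    refine prod_congr rfl fun i _ => ?_
    push_cast
    rw [← hs, ← hp]
    ring
  have h2 : (((c₁ ^ 2 - 4 * c₂) * ∏ i ∈ range k, ((s - i) ^ 2 + c₁ * (s - i) + c₂) : ℤ) : ℂ) =
      (((k.factorial : ℤ) ^ 2 * (c₁ * T * U - U ^ 2 - c₂ * T ^ 2) : ℤ) : ℂ) := by
    rw [Int.cast_mul, Int.cast_mul, ← hkey, Int.cast_prod, ← h1]
    push_cast
    ring
  exact_mod_cast h2

/-- the primes up to `n - 1` -/
lemma prime_exists {c₁ c₂ : ℤ} {p : ℕ} (hp : p.Prime)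
    (h : ((p.factorial : ℤ) ^ 2) ∣
      (c₁ ^ 2 - 4 * c₂) * ∏ i ∈ range p, ((0 - (i : ℤ)) ^ 2 + c₁ * (0 - i) + c₂)) :
    ∃ a : ℤ, (p : ℤ) ∣ 2 * (a ^ 2 + c₁ * a + c₂) := by
  have hpp : Prime (p : ℤ) := Nat.prime_iff_prime_int.1 hp
  by_contra hcon
  push Not at hcon
  have h1 : (p : ℤ) ∣ (p.factorial : ℤ) ^ 2 := by
    have : p ∣ p.factorial := Nat.dvd_factorial hp.pos le_rfl
    exact (Int.natCast_dvd_natCast.2 this).trans (dvd_pow_self _ two_ne_zero)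
  have h2 : (p : ℤ) ∣ c₁ ^ 2 - 4 * c₂ := by
    rcases hpp.dvd_or_dvd (h1.trans h) with h3 | h3
    · exact h3
    · obtain ⟨i, -, hi⟩ := hpp.exists_mem_finset_dvd h3
      exact absurd (hi.mul_left 2) (hcon _)
  rcases hp.eq_two_or_odd' with h3 | h3
  · subst h3
    exact hcon 0 ⟨(0 ^ 2 + c₁ * 0 + c₂), by push_cast; ring⟩
  · -- solve `2 a + c₁ = 0` modulo `p`
    obtain ⟨r, hr⟩ := h3
    have hr' : (p : ℤ) = 2 * r + 1 := by exact_mod_cast hr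
    -- `a = r c₁`, `2 a + c₁ = p c₁`
    have h4 : (p : ℤ) ∣ 2 * (2 * ((r * c₁) ^ 2 + c₁ * (r * c₁) + c₂)) := by
      have e : 2 * (2 * ((r * c₁) ^ 2 + c₁ * (r * c₁) + c₂)) =
          p * (p * c₁ ^ 2) - (c₁ ^ 2 - 4 * c₂) := by rw [hr']; ring
      rw [e]
      exact dvd_sub (dvd_mul_right _ _) h2
    rcases hpp.dvd_or_dvd h4 with h5 | h5
    · have h6 : p ∣ 2 := by exact_mod_cast h5
      have := Nat.le_of_dvd (by norm_num) h6
      have h7 := hp.two_le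
      omega
    · exact hcon _ h5

/-- **Main arithmetic theorem.** -/
theorem modulus {x y : ℂ} {c₁ c₂ : ℤ} (hs : x + y = c₁) (hp : x * y = c₂) {n : ℕ}
    (h : ∀ k ≤ n, ∀ s : ℤ, IsInt (F x y k s)) :
    ∃ a : ℤ, (((Finset.Icc 1 (n / 2)).lcm id : ℕ) : ℤ) ^ 2 *
        ∏ p ∈ (Finset.Ioo (n / 2) n).filter Nat.Prime, (p : ℤ) ∣
      2 * (a ^ 2 + c₁ * a + c₂) := by
  classical
  refine combine ?_ (lcm_dvd fun k hk s => norm_dvd hs hp h (by omega) s) ?_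
  · refine IsCoprime.pow_left ?_
    refine IsCoprime.prod_right fun p hp' => ?_
    obtain ⟨h1, h2⟩ := mem_filter.1 hp'
    have h3 := (mem_Ioo.1 h1).1
    refine Nat.isCoprime_iff_coprime.2 ?_
    -- `p` does not divide the lcm
    refine Nat.Coprime.symm ((Nat.Prime.coprime_iff_not_dvd h2).2 fun hd => ?_)
    have h4 : (Finset.Icc 1 (n / 2)).lcm id ∣ (n / 2).factorial :=
      Finset.lcm_dvd fun i hi =>
        Nat.dvd_factorial (Finset.mem_Icc.1 hi).1 (Finset.mem_Icc.1 hi).2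
    have h5 := (Nat.Prime.dvd_factorial h2).1 (hd.trans h4)
    omega
  · refine prod_exists ((Finset.Ioo (n / 2) n).filter Nat.Prime) (fun p : ℕ => (p : ℤ)) ?_ ?_
    · intro p hp' q hq' hpq
      have h1 := (mem_filter.1 hp').2
      have h2 := (mem_filter.1 hq').2
      exact Nat.isCoprime_iff_coprime.2 ((Nat.coprime_primes h1 h2).2 hpq)
    · intro p hp'
      obtain ⟨h1, h2⟩ := mem_filter.1 hp'
      have h3 := (mem_Ioo.1 h1).2
      exact prime_exists h2 (disc_dvd hs hp h (by omega) 0)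

end Pool.Agent.Q233.SW
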