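import Pool.Agent.Q233.SW.Gen

set_option autoImplicit false

/-!
# Alternating sums over subsets
-/

open Finset Filter Topology

namespace Pool.Agent.Q233.SW

lemma int_of_periodic {r : ℕ} {x : Fin r → ℂ} (hx : ∀ i, x i ≠ 0)
    (h : ∀ u : ℂ, ∏ i, (1 - Complex.exp (-x i * (u + 2 * Real.pi * Complex.I))) =
      ∏ i, (1 - Complex.exp (-x i * u))) (i : Fin r) : IsInt (x i) := by
  classical
  by_contra hcon
  obtain ⟨A, hA⟩ : ∃ A : Finset (Fin r), A = univ.filter fun i => IsInt (x i) := ⟨_, rfl⟩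
  have hiA : i ∉ A := by rw [hA]; simp [hcon]
  -- on `A` the factors agree
  have hAeq : ∀ j ∈ A, ∀ u : ℂ, Complex.exp (-x j * (u + 2 * Real.pi * Complex.I)) =
      Complex.exp (-x j * u) := by
    intro j hj u
    rw [hA, mem_filter] at hj
    obtain ⟨k, hk⟩ := hj.2
    rw [mul_add, Complex.exp_add]
    have : Complex.exp (-x j * (2 * Real.pi * Complex.I)) = 1 := by
      rw [hk]
      have := Complex.exp_int_mul_two_pi_mul_I (-k)
      push_cast at this
      exact this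
    rw [this, mul_one]
  -- the factors of `A` do not vanish near zero
  have hne : ∀ j, ∀ᶠ u : ℂ in 𝓝[≠] 0, 1 - Complex.exp (-x j * u) ≠ 0 := by
    intro j
    have hd : HasDerivAt (fun u : ℂ => Complex.exp (-x j * u)) (-x j) 0 := by
      have h1 : HasDerivAt (fun u : ℂ => -x j * u) (-x j) 0 := by
        simpa using (hasDerivAt_id (0 : ℂ)).const_mul (-x j)
      have h2 := h1.cexp
      simpa using h2
    have h3 := hd.eventually_ne (c := 1) (neg_ne_zero.2 (hx j))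
    refine h3.mono fun u hu h0 => hu ?_
    linear_combination -h0
  have hall : ∀ᶠ u : ℂ in 𝓝[≠] 0, ∏ j ∈ A, (1 - Complex.exp (-x j * u)) ≠ 0 := by
    have : ∀ᶠ u : ℂ in 𝓝[≠] 0, ∀ j, 1 - Complex.exp (-x j * u) ≠ 0 :=
      Filter.eventually_all.2 hne
    exact this.mono fun u hu => prod_ne_zero_iff.2 fun j _ => hu j
  have heq : ∀ᶠ u : ℂ in 𝓝[≠] 0,
      ∏ j ∈ univ \ A, (1 - Complex.exp (-x j * (u + 2 * Real.pi * Complex.I))) =
        ∏ j ∈ univ \ A, (1 - Complex.exp (-x j * u)) := by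
    filter_upwards [hall] with u hu
    have h1 := h u
    rw [← prod_sdiff (subset_univ A), ← prod_sdiff (subset_univ A)] at h1
    have h2 : ∏ j ∈ A, (1 - Complex.exp (-x j * (u + 2 * Real.pi * Complex.I))) =
        ∏ j ∈ A, (1 - Complex.exp (-x j * u)) :=
      prod_congr rfl fun j hj => by rw [hAeq j hj]
    rw [h2] at h1
    exact mul_right_cancel₀ hu h1
  have hc1 : Continuous fun u : ℂ =>
      ∏ j ∈ univ \ A, (1 - Complex.exp (-x j * (u + 2 * Real.pi * Complex.I))) := by fun_prop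
  have hc2 : Continuous fun u : ℂ => ∏ j ∈ univ \ A, (1 - Complex.exp (-x j * u)) := by fun_prop
  have ht1 := (hc1.tendsto 0).mono_left (nhdsWithin_le_nhds (s := {0}ᶜ))
  have ht2 := (hc2.tendsto 0).mono_left (nhdsWithin_le_nhds (s := {0}ᶜ))
  have ht3 := ht1.congr' heq
  have h3 := tendsto_nhds_unique ht3 ht2
  have h4 : ∏ j ∈ univ \ A, (1 - Complex.exp (-x j * 0)) = 0 :=
    prod_eq_zero (i := i) (mem_sdiff.2 ⟨mem_univ i, hiA⟩) (by simp)
  rw [h4] at h3
  obtain ⟨j, hj, hj0⟩ := prod_eq_zero_iff.1 h3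
  have hjA := (mem_sdiff.1 hj).2
  refine hjA ?_
  rw [hA, mem_filter]
  refine ⟨mem_univ j, ?_⟩
  have h5 : Complex.exp (-x j * (0 + 2 * Real.pi * Complex.I)) = 1 := by
    linear_combination -hj0
  rw [Complex.exp_eq_one_iff] at h5
  obtain ⟨k, hk⟩ := h5
  refine ⟨-k, ?_⟩
  have h6 : (2 * (Real.pi : ℂ) * Complex.I) ≠ 0 := by
    simp [Real.pi_ne_zero]
  have h7 : -x j = k := by
    apply mul_right_cancel₀ h6
    rw [← hk]; ring
  push_cast
  rw [← h7]; ring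

/-- **Main theorem on alternating sums.** -/
theorem roots_int {r n : ℕ} {x : Fin r → ℂ} (hx : ∀ i, x i ≠ 0) {c : ℤ} (hc : ∑ i, x i = c)
    (hn : 4 * ∑ i, ‖x i‖ + 5 * 2 ^ r + 3 ≤ (n : ℝ))
    (h : ∃ t₀ : ℤ, ∀ t : ℤ, t₀ ≤ t → IsInt (∑ S : Finset (Fin r),
      (-1 : ℂ) ^ S.card * bin (-(∑ i ∈ S, x i) + t) n)) (i : Fin r) : IsInt (x i) := by
  classical
  obtain ⟨t₀, ht⟩ := h
  obtain ⟨m, hm⟩ : ∃ m : Finset (Fin r) → ℤ, m = fun S => (-1) ^ S.card := ⟨_, rfl⟩
  obtain ⟨z, hz⟩ : ∃ z : Finset (Fin r) → ℂ, z = fun S => -∑ i ∈ S, x i := ⟨_, rfl⟩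
  have hG : ∀ t : ℤ, t₀ ≤ t → IsInt (G m z n t) := by
    intro t h1
    have := ht t h1
    unfold G
    rw [hm, hz]
    push_cast
    exact this
  have hall := G_int_all m z n t₀ hG
  have hm1 : ∀ S, |m S| ≤ 1 := by
    intro S; rw [hm]; simp [abs_pow]
  have hw : ∀ S, ‖z S - ((-(c : ℝ) / 2 : ℝ) : ℂ)‖ ≤ (∑ i, ‖x i‖) / 2 := by
    intro S
    have e1 : (c : ℂ) = ∑ i ∈ univ \ S, x i + ∑ i ∈ S, x i := by
      rw [← hc, sum_sdiff (subset_univ S)]
    have e2 : z S - ((-(c : ℝ) / 2 : ℝ) : ℂ) = (∑ i ∈ univ \ S, x i - ∑ i ∈ S, x i) / 2 := by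
      rw [hz]; push_cast; rw [e1]; ring
    rw [e2, norm_div]
    have e3 : ‖∑ i ∈ univ \ S, x i - ∑ i ∈ S, x i‖ ≤ ∑ i, ‖x i‖ := by
      refine (norm_sub_le _ _).trans ?_
      rw [← sum_sdiff (subset_univ S)]
      exact add_le_add (norm_sum_le _ _) (norm_sum_le _ _)
    have e4 : ‖(2 : ℂ)‖ = 2 := by simp
    rw [e4]
    linarith
  have hcard : (Fintype.card (Finset (Fin r)) : ℝ) = 2 ^ r := by
    rw [Fintype.card_finset, Fintype.card_fin]; push_cast; rfl
  have hper := exp_periodic hm1 hall hw (n := n) (by rw [hcard]; linarith)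
  refine int_of_periodic hx (fun u => ?_) i
  have key : ∀ u : ℂ, ∏ i, (1 - Complex.exp (-x i * u)) =
      ∑ S, (m S : ℂ) * Complex.exp (z S * u) := by
    intro u
    have h1 : ∀ i, 1 - Complex.exp (-x i * u) = 1 + (-Complex.exp (-x i * u)) := fun i => by ring
    rw [prod_congr rfl fun i _ => h1 i, Finset.prod_one_add, powerset_univ]
    refine sum_congr rfl fun S _ => ?_
    rw [hm, hz, prod_neg, neg_mul, sum_mul, ← sum_neg_distrib, Complex.exp_sum]
    push_cast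
    congr 1
    refine prod_congr rfl fun i _ => ?_
    rw [neg_mul]
  rw [key, key]
  exact hper u

end Pool.Agent.Q233.SW
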